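import Pool.Agent.Lib.MP_424cb6_lc.Assemble
import Pool.Agent.Lib.MP_424cb6_lc.RankMod
import Pool.Agent.Lib.MP_424cb6_lc.TwPT

set_option autoImplicit false

namespace Pool.Agent.Results.MP_424cb6_lc.PolynomialTime

open N68a2faeb FVS424

/-- **Feedback Vertex Set is polynomial-time solvable on `S_{1,p,q,r}`-subgraph-free graphs, for
all `p, q, r`.**  There is a polynomial-time computable function `f` (on Turing machines, with the
graph given by its 0/1 adjacency matrix and `k` in binary) which, for every graph `G` on
`{0, ..., n - 1}` with no subgraph isomorphic to `S_{1,p,q,r}` and every `k`, decides whether `G`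
has a feedback vertex set of size at most `k`; and (the equivalent search form) there is a
polynomial-time computable function `g` which computes a minimum feedback vertex set of every such
graph. -/
theorem result (p q r : ℕ) :
    (∃ f : List (List Bool) × ℕ → Bool, IsPolyTime f ∧
      ∀ (n : ℕ) (G : SimpleGraph (Fin n)) [DecidableRel G.Adj] (k : ℕ),
        (subdividedStar ![1, p, q, r]).Free G →
        (f (adjMat G, k) = true ↔ ∃ X : Finset (Fin n), X.card ≤ k ∧ IsFVS G X)) ∧
    (∃ g : List (List Bool) → List ℕ, IsPolyTime g ∧
      ∀ (n : ℕ) (G : SimpleGraph (Fin n)) [DecidableRel G.Adj],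
        (subdividedStar ![1, p, q, r]).Free G →
        ∃ X : Finset (Fin n), (g (adjMat G)).toFinset = X.map Fin.valEmbedding ∧ IsFVS G X ∧
          ∀ Y : Finset (Fin n), IsFVS G Y → X.card ≤ Y.card) :=
  main_of Pool.Agent.MSR.PT.rankMod (fun p _ N L hL => Pool.Agent.MSR.rankMod_eq p N L hL)
    exists_twVal p q r

end Pool.Agent.Results.MP_424cb6_lc.PolynomialTime
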